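import Pool.Agent.Helper25.PCap.GoalsTools

/-!
# Packet REFL (MP_576c25_an): calculus of the partial derivatives
-/

set_option autoImplicit false
open MeasureTheory Set Filter Topology
open scoped ContDiff Real

noncomputable section
namespace Pool.Agent.Helper11.Refl
open Pool.Agent.Helper25.PCap

/-- the adjoint operator -/
def Lst (κ : ℝ) (φ : ℝ × ℝ → ℝ) (z : ℝ × ℝ) : ℝ :=
  D1 (D1 φ) z + (1 - κ) * D1 φ z + κ * D2 (D2 φ) z

theorem D1_smooth {f : ℝ × ℝ → ℝ} (h : ContDiff ℝ ∞ f) : ContDiff ℝ ∞ (D1 f) :=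
  (h.fderiv_right (m := ∞) (by simp)).clm_apply contDiff_const

theorem D2_smooth {f : ℝ × ℝ → ℝ} (h : ContDiff ℝ ∞ f) : ContDiff ℝ ∞ (D2 f) :=
  (h.fderiv_right (m := ∞) (by simp)).clm_apply contDiff_const

theorem D1_supp {f : ℝ × ℝ → ℝ} (h : HasCompactSupport f) : HasCompactSupport (D1 f) :=
  h.fderiv_apply ℝ _

theorem D2_supp {f : ℝ × ℝ → ℝ} (h : HasCompactSupport f) : HasCompactSupport (D2 f) :=
  h.fderiv_apply ℝ _

theorem D1_congr {f g : ℝ × ℝ → ℝ} {z : ℝ × ℝ} (h : f =ᶠ[𝓝 z] g) : D1 f =ᶠ[𝓝 z] D1 g := by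
  filter_upwards [h.fderiv (𝕜 := ℝ)] with y hy
  unfold D1
  rw [hy]

theorem D2_congr {f g : ℝ × ℝ → ℝ} {z : ℝ × ℝ} (h : f =ᶠ[𝓝 z] g) : D2 f =ᶠ[𝓝 z] D2 g := by
  filter_upwards [h.fderiv (𝕜 := ℝ)] with y hy
  unfold D2
  rw [hy]

theorem LL_congr {κ : ℝ} {f g : ℝ × ℝ → ℝ} {z : ℝ × ℝ} (h : f =ᶠ[𝓝 z] g) :
    LL κ f z = LL κ g z := by
  unfold LL
  rw [(D1_congr (D1_congr h)).eq_of_nhds, (D1_congr h).eq_of_nhds,
    (D2_congr (D2_congr h)).eq_of_nhds]

theorem Lst_congr {κ : ℝ} {f g : ℝ × ℝ → ℝ} {z : ℝ × ℝ} (h : f =ᶠ[𝓝 z] g) :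
    Lst κ f z = Lst κ g z := by
  unfold Lst
  rw [(D1_congr (D1_congr h)).eq_of_nhds, (D1_congr h).eq_of_nhds,
    (D2_congr (D2_congr h)).eq_of_nhds]

theorem D1_mul {f g : ℝ × ℝ → ℝ} {z : ℝ × ℝ} (hf : DifferentiableAt ℝ f z)
    (hg : DifferentiableAt ℝ g z) :
    D1 (fun y => f y * g y) z = f z * D1 g z + g z * D1 f z := by
  unfold D1
  rw [fderiv_fun_mul hf hg]
  simp

theorem D2_mul {f g : ℝ × ℝ → ℝ} {z : ℝ × ℝ} (hf : DifferentiableAt ℝ f z)
    (hg : DifferentiableAt ℝ g z) :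
    D2 (fun y => f y * g y) z = f z * D2 g z + g z * D2 f z := by
  unfold D2
  rw [fderiv_fun_mul hf hg]
  simp

theorem D1_sub {f g : ℝ × ℝ → ℝ} {z : ℝ × ℝ} (hf : DifferentiableAt ℝ f z)
    (hg : DifferentiableAt ℝ g z) :
    D1 (fun y => f y - g y) z = D1 f z - D1 g z := by
  unfold D1
  rw [fderiv_fun_sub hf hg]
  simp

theorem D2_sub {f g : ℝ × ℝ → ℝ} {z : ℝ × ℝ} (hf : DifferentiableAt ℝ f z)
    (hg : DifferentiableAt ℝ g z) :
    D2 (fun y => f y - g y) z = D2 f z - D2 g z := by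
  unfold D2
  rw [fderiv_fun_sub hf hg]
  simp

theorem D1_neg {f : ℝ × ℝ → ℝ} {z : ℝ × ℝ} :
    D1 (fun y => -f y) z = -D1 f z := by
  unfold D1
  rw [fderiv_fun_neg]
  simp

theorem D2_neg {f : ℝ × ℝ → ℝ} {z : ℝ × ℝ} :
    D2 (fun y => -f y) z = -D2 f z := by
  unfold D2
  rw [fderiv_fun_neg]
  simp

theorem diff {f : ℝ × ℝ → ℝ} (h : ContDiff ℝ ∞ f) : Differentiable ℝ f :=
  h.differentiable (by simp)

theorem LL_neg {κ : ℝ} {f : ℝ × ℝ → ℝ} {z : ℝ × ℝ} : LL κ (fun y => -f y) z = -LL κ f z := by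
  unfold LL
  have h1 : D1 (fun y => -f y) = fun y => -D1 f y := funext fun y => D1_neg
  have h2 : D2 (fun y => -f y) = fun y => -D2 f y := funext fun y => D2_neg
  rw [h1, h2, D1_neg, D2_neg]
  ring

theorem Lst_sub {κ : ℝ} {f g : ℝ × ℝ → ℝ} (hf : ContDiff ℝ ∞ f) (hg : ContDiff ℝ ∞ g)
    (z : ℝ × ℝ) : Lst κ (fun y => f y - g y) z = Lst κ f z - Lst κ g z := by
  have h1 : D1 (fun y => f y - g y) = fun y => D1 f y - D1 g y :=
    funext fun y => D1_sub (diff hf y) (diff hg y)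
  have h2 : D2 (fun y => f y - g y) = fun y => D2 f y - D2 g y :=
    funext fun y => D2_sub (diff hf y) (diff hg y)
  unfold Lst
  rw [h1, h2, D1_sub (diff (D1_smooth hf) z) (diff (D1_smooth hg) z),
    D2_sub (diff (D2_smooth hf) z) (diff (D2_smooth hg) z)]
  ring

/-! ### reflection -/

/-- the reflection in the axis -/
def RR : (ℝ × ℝ) ≃L[ℝ] (ℝ × ℝ) :=
  (ContinuousLinearEquiv.refl ℝ ℝ).prodCongr (ContinuousLinearEquiv.neg ℝ)

theorem RR_apply (z : ℝ × ℝ) : RR z = (z.1, -z.2) := rfl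

theorem RR_RR (z : ℝ × ℝ) : RR (RR z) = z := by simp [RR_apply]

theorem D1_RR (f : ℝ × ℝ → ℝ) (z : ℝ × ℝ) : D1 (fun y => f (RR y)) z = D1 f (RR z) := by
  unfold D1
  have h := RR.comp_right_fderiv (f := f) (x := z)
  have h' : fderiv ℝ (fun y => f (RR y)) z = (fderiv ℝ f (RR z)).comp (RR : (ℝ × ℝ) →L[ℝ] ℝ × ℝ) := h
  rw [h', ContinuousLinearMap.comp_apply]
  congr 1
  simp [RR_apply]

theorem D2_RR (f : ℝ × ℝ → ℝ) (z : ℝ × ℝ) : D2 (fun y => f (RR y)) z = -D2 f (RR z) := by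
  unfold D2
  have h := RR.comp_right_fderiv (f := f) (x := z)
  have h' : fderiv ℝ (fun y => f (RR y)) z = (fderiv ℝ f (RR z)).comp (RR : (ℝ × ℝ) →L[ℝ] ℝ × ℝ) := h
  rw [h', ContinuousLinearMap.comp_apply, ← map_neg]
  congr 1
  simp [RR_apply]

theorem LL_RR {κ : ℝ} (f : ℝ × ℝ → ℝ) (z : ℝ × ℝ) : LL κ (fun y => f (RR y)) z = LL κ f (RR z) := by
  unfold LL
  have h1 : D1 (fun y => f (RR y)) = fun y => D1 f (RR y) := funext fun y => D1_RR f y
  have h2 : D2 (fun y => f (RR y)) = fun y => -D2 f (RR y) := funext fun y => D2_RR f y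
  rw [h1, h2, D1_RR, D2_neg, D2_RR]
  ring

theorem Lst_RR {κ : ℝ} (f : ℝ × ℝ → ℝ) (z : ℝ × ℝ) :
    Lst κ (fun y => f (RR y)) z = Lst κ f (RR z) := by
  unfold Lst
  have h1 : D1 (fun y => f (RR y)) = fun y => D1 f (RR y) := funext fun y => D1_RR f y
  have h2 : D2 (fun y => f (RR y)) = fun y => -D2 f (RR y) := funext fun y => D2_RR f y
  rw [h1, h2, D1_RR, D2_neg, D2_RR]
  ring

/-! ### point reflection `y ↦ x - y` -/

theorem fderiv_ref (f : ℝ × ℝ → ℝ) (x z : ℝ × ℝ) :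
    fderiv ℝ (fun y => f (x - y)) z = -fderiv ℝ f (x - z) := by
  have h1 : (fun y => f (x - y)) = (fun w => f (w + x)) ∘ (ContinuousLinearEquiv.neg ℝ : (ℝ × ℝ) ≃L[ℝ] (ℝ × ℝ)) := by
    funext y
    simp [sub_eq_add_neg, add_comm]
  rw [h1, ContinuousLinearEquiv.comp_right_fderiv, fderiv_comp_add_right]
  refine ContinuousLinearMap.ext fun v => ?_
  show fderiv ℝ f (-z + x) (-v) = -(fderiv ℝ f (x - z) v)
  rw [map_neg, show -z + x = x - z by abel]

theorem D1_ref (f : ℝ × ℝ → ℝ) (x z : ℝ × ℝ) : D1 (fun y => f (x - y)) z = -D1 f (x - z) := by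
  unfold D1
  rw [fderiv_ref]
  simp

theorem D2_ref (f : ℝ × ℝ → ℝ) (x z : ℝ × ℝ) : D2 (fun y => f (x - y)) z = -D2 f (x - z) := by
  unfold D2
  rw [fderiv_ref]
  simp

theorem Lst_ref {κ : ℝ} (f : ℝ × ℝ → ℝ) (x z : ℝ × ℝ) :
    Lst κ (fun y => f (x - y)) z = LL κ f (x - z) := by
  unfold Lst LL
  have h1 : D1 (fun y => f (x - y)) = fun y => -D1 f (x - y) := funext fun y => D1_ref f x y
  have h2 : D2 (fun y => f (x - y)) = fun y => -D2 f (x - y) := funext fun y => D2_ref f x y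
  rw [h1, h2, D1_neg, D2_neg, D1_ref, D2_ref]
  ring

/-! ### integration by parts -/

theorem int_of {f g : ℝ × ℝ → ℝ} (hf : Continuous f) (hg : Continuous g)
    (hc : HasCompactSupport g) : Integrable (fun z => f z * g z) :=
  (hf.mul hg).integrable_of_hasCompactSupport hc.mul_left

theorem ibp1 {f g : ℝ × ℝ → ℝ} (hf : ContDiff ℝ ∞ f) (hg : ContDiff ℝ ∞ g)
    (hc : HasCompactSupport g) : ∫ z, f z * D1 g z = -∫ z, D1 f z * g z :=
  integral_mul_fderiv_eq_neg_fderiv_mul_of_integrable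
    (int_of (D1_smooth hf).continuous hg.continuous hc)
    (int_of hf.continuous (D1_smooth hg).continuous (D1_supp hc))
    (int_of hf.continuous hg.continuous hc) (fun x _ => diff hf x) (fun x _ => diff hg x)

theorem ibp2 {f g : ℝ × ℝ → ℝ} (hf : ContDiff ℝ ∞ f) (hg : ContDiff ℝ ∞ g)
    (hc : HasCompactSupport g) : ∫ z, f z * D2 g z = -∫ z, D2 f z * g z :=
  integral_mul_fderiv_eq_neg_fderiv_mul_of_integrable
    (int_of (D2_smooth hf).continuous hg.continuous hc)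
    (int_of hf.continuous (D2_smooth hg).continuous (D2_supp hc))
    (int_of hf.continuous hg.continuous hc) (fun x _ => diff hf x) (fun x _ => diff hg x)

theorem ibp {κ : ℝ} {f g : ℝ × ℝ → ℝ} (hf : ContDiff ℝ ∞ f) (hg : ContDiff ℝ ∞ g)
    (hc : HasCompactSupport g) : ∫ z, f z * Lst κ g z = ∫ z, LL κ f z * g z := by
  have c1 := int_of hf.continuous (D1_smooth (D1_smooth hg)).continuous (D1_supp (D1_supp hc))
  have c2 := int_of hf.continuous (D1_smooth hg).continuous (D1_supp hc)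
  have c3 := int_of hf.continuous (D2_smooth (D2_smooth hg)).continuous (D2_supp (D2_supp hc))
  have d1 := int_of (D1_smooth (D1_smooth hf)).continuous hg.continuous hc
  have d2 := int_of (D1_smooth hf).continuous hg.continuous hc
  have d3 := int_of (D2_smooth (D2_smooth hf)).continuous hg.continuous hc
  have e1 : ∫ z, f z * D1 (D1 g) z = ∫ z, D1 (D1 f) z * g z := by
    rw [ibp1 hf (D1_smooth hg) (D1_supp hc), ibp1 (D1_smooth hf) hg hc, neg_neg]
  have e2 : ∫ z, f z * D1 g z = -∫ z, D1 f z * g z := ibp1 hf hg hc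
  have e3 : ∫ z, f z * D2 (D2 g) z = ∫ z, D2 (D2 f) z * g z := by
    rw [ibp2 hf (D2_smooth hg) (D2_supp hc), ibp2 (D2_smooth hf) hg hc, neg_neg]
  have l : ∫ z, f z * Lst κ g z = (∫ z, f z * D1 (D1 g) z) + (1 - κ) * (∫ z, f z * D1 g z) +
      κ * ∫ z, f z * D2 (D2 g) z := by
    have s1 : Integrable (fun z => f z * D1 (D1 g) z + (1 - κ) * (f z * D1 g z)) :=
      c1.add (c2.const_mul _)
    rw [← integral_const_mul, ← integral_const_mul, ← integral_add c1 (c2.const_mul _),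
      ← integral_add s1 (c3.const_mul _)]
    refine integral_congr_ae (Eventually.of_forall fun z => ?_)
    simp only [Lst]
    ring
  have r : ∫ z, LL κ f z * g z = (∫ z, D1 (D1 f) z * g z) - (1 - κ) * (∫ z, D1 f z * g z) +
      κ * ∫ z, D2 (D2 f) z * g z := by
    have s1 : Integrable (fun z => D1 (D1 f) z * g z - (1 - κ) * (D1 f z * g z)) :=
      d1.sub (d2.const_mul _)
    rw [← integral_const_mul, ← integral_const_mul, ← integral_sub d1 (d2.const_mul _),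
      ← integral_add s1 (d3.const_mul _)]
    refine integral_congr_ae (Eventually.of_forall fun z => ?_)
    simp only [LL]
    ring
  rw [l, r, e1, e2, e3]
  ring

end Pool.Agent.Helper11.Refl
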