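import Pool.Agent.Helper11.Refl.A

/-!
# Packet REFL (MP_576c25_an): removability of the axis
-/

set_option autoImplicit false
open MeasureTheory Set Filter Topology
open scoped ContDiff Real

noncomputable section
namespace Pool.Agent.Helper11.Refl
open Pool.Agent.Helper25.PCap

/-- a bump function on the line -/
def bmp : ContDiffBump (0 : ℝ) := ⟨1, 2, one_pos, one_lt_two⟩

theorem bmp_one {s : ℝ} (h : |s| ≤ 1) : bmp s = 1 :=
  bmp.one_of_mem_closedBall (by simpa [bmp, Real.dist_eq] using h)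

theorem bmp_zero {s : ℝ} (h : 2 ≤ |s|) : bmp s = 0 :=
  bmp.zero_of_le_dist (by simpa [bmp, Real.dist_eq] using h)

/-- functions of the second variable -/
theorem D1_snd {h : ℝ → ℝ} (hh : ContDiff ℝ ∞ h) (z : ℝ × ℝ) :
    D1 (fun y : ℝ × ℝ => h y.2) z = 0 := by
  unfold D1
  have h1 : HasFDerivAt (fun y : ℝ × ℝ => h y.2)
      ((ContinuousLinearMap.toSpanSingleton ℝ (deriv h z.2)).comp (ContinuousLinearMap.snd ℝ ℝ ℝ)) z :=
    ((hh.differentiable (by simp)) z.2).hasDerivAt.hasFDerivAt.comp z hasFDerivAt_snd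
  rw [h1.fderiv]
  simp

theorem D2_snd {h : ℝ → ℝ} (hh : ContDiff ℝ ∞ h) (z : ℝ × ℝ) :
    D2 (fun y : ℝ × ℝ => h y.2) z = deriv h z.2 := by
  unfold D2
  have h1 : HasFDerivAt (fun y : ℝ × ℝ => h y.2)
      ((ContinuousLinearMap.toSpanSingleton ℝ (deriv h z.2)).comp (ContinuousLinearMap.snd ℝ ℝ ℝ)) z :=
    ((hh.differentiable (by simp)) z.2).hasDerivAt.hasFDerivAt.comp z hasFDerivAt_snd
  rw [h1.fderiv]
  simp

theorem deriv_smooth {h : ℝ → ℝ} (hh : ContDiff ℝ ∞ h) : ContDiff ℝ ∞ (deriv h) :=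
  (contDiff_infty_iff_deriv.1 hh).2

/-- `L*(φ h(θ))` -/
theorem Lst_mul_snd {κ : ℝ} {φ : ℝ × ℝ → ℝ} {h : ℝ → ℝ} (hφ : ContDiff ℝ ∞ φ)
    (hh : ContDiff ℝ ∞ h) (z : ℝ × ℝ) :
    Lst κ (fun y => φ y * h y.2) z = Lst κ φ z * h z.2 +
      κ * (2 * D2 φ z * deriv h z.2 + φ z * deriv (deriv h) z.2) := by
  have hs : ContDiff ℝ ∞ (fun y : ℝ × ℝ => h y.2) := hh.comp contDiff_snd
  have hs' : ContDiff ℝ ∞ (fun y : ℝ × ℝ => deriv h y.2) := (deriv_smooth hh).comp contDiff_snd
  have h1 : D1 (fun y => φ y * h y.2) = fun y => D1 φ y * h y.2 := funext fun y => by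
    rw [D1_mul (diff hφ y) (diff hs y), D1_snd hh]; ring
  have h2 : D2 (fun y => φ y * h y.2) = fun y => D2 φ y * h y.2 + φ y * deriv h y.2 :=
    funext fun y => by
      rw [D2_mul (diff hφ y) (diff hs y), D2_snd hh]; ring
  have h3 : D1 (fun y => D1 φ y * h y.2) z = D1 (D1 φ) z * h z.2 := by
    rw [D1_mul (diff (D1_smooth hφ) z) (diff hs z), D1_snd hh]; ring
  have h4 : D2 (fun y => D2 φ y * h y.2 + φ y * deriv h y.2) z =
      D2 (D2 φ) z * h z.2 + 2 * D2 φ z * deriv h z.2 + φ z * deriv (deriv h) z.2 := by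
    have e1 := D2_mul (diff (D2_smooth hφ) z) (diff hs z)
    have e2 := D2_mul (diff hφ z) (diff hs' z)
    rw [D2_snd hh] at e1
    rw [D2_snd (deriv_smooth hh)] at e2
    have e3 : D2 (fun y => D2 φ y * h y.2 + φ y * deriv h y.2) z =
        D2 (fun y => D2 φ y * h y.2) z + D2 (fun y => φ y * deriv h y.2) z := by
      unfold D2
      rw [fderiv_fun_add]
      · rfl
      · exact (diff (D2_smooth hφ) z).mul (diff hs z)
      · exact (diff hφ z).mul (diff hs' z)
    rw [e3, e1, e2]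
    ring
  unfold Lst
  rw [h1, h2, h3, h4]
  ring

/-- scaled function -/
theorem scal_smooth {h : ℝ → ℝ} (hh : ContDiff ℝ ∞ h) (c : ℝ) :
    ContDiff ℝ ∞ (fun s => h (c * s)) := hh.comp (contDiff_const.mul contDiff_id)

theorem deriv_scal {h : ℝ → ℝ} (c s : ℝ) :
    deriv (fun s => h (c * s)) s = c * deriv h (c * s) := by
  have := deriv_comp_mul_left c h s
  simpa using this

theorem deriv_deriv_scal {h : ℝ → ℝ} (c s : ℝ) :
    deriv (deriv (fun s => h (c * s))) s = c ^ 2 * deriv (deriv h) (c * s) := by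
  have h1 : deriv (fun s => h (c * s)) = fun s => c * deriv h (c * s) := funext fun s => deriv_scal c s
  rw [h1, deriv_const_mul_field, deriv_scal]
  ring

theorem bmp_smooth : ContDiff ℝ ∞ (bmp : ℝ → ℝ) := bmp.contDiff

theorem bmp_bounds : ∃ M : ℝ, 0 ≤ M ∧ ∀ s, |bmp s| ≤ M ∧ |deriv bmp s| ≤ M ∧
    |deriv (deriv bmp) s| ≤ M := by
  have hc : HasCompactSupport (bmp : ℝ → ℝ) := bmp.hasCompactSupport
  obtain ⟨M0, h0⟩ := hc.exists_bound_of_continuous bmp.continuous
  obtain ⟨M1, h1⟩ := hc.deriv.exists_bound_of_continuous (deriv_smooth bmp_smooth).continuous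
  obtain ⟨M2, h2⟩ := hc.deriv.deriv.exists_bound_of_continuous
    (deriv_smooth (deriv_smooth bmp_smooth)).continuous
  refine ⟨max |M0| (max |M1| |M2|), by positivity, fun s => ⟨?_, ?_, ?_⟩⟩
  · exact ((h0 s).trans (le_abs_self _)).trans (le_max_left _ _)
  · exact ((h1 s).trans (le_abs_self _)).trans ((le_max_left _ _).trans (le_max_right _ _))
  · exact ((h2 s).trans (le_abs_self _)).trans ((le_max_right _ _).trans (le_max_right _ _))

theorem supp_bound {f : ℝ × ℝ → ℝ} (hc : HasCompactSupport f) :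
    ∃ S : ℝ, 0 < S ∧ ∀ z, f z ≠ 0 → |z.1| ≤ S := by
  obtain ⟨S, hS⟩ := hc.isCompact.isBounded.exists_norm_le
  refine ⟨max S 1, by positivity, fun z hz => ?_⟩
  have h1 := hS z (subset_tsupport _ hz)
  have h2 : ‖z.1‖ ≤ ‖z‖ := norm_fst_le z
  exact (h2.trans h1).trans (le_max_left _ _)

/-- The axis is removable: odd test functions. -/
theorem odd_test {κ : ℝ} (O : Set (ℝ × ℝ)) (g φ : ℝ × ℝ → ℝ)
    (hgc : Continuous g) (hgs : HasCompactSupport g) (hg0 : ∀ τ, g (τ, 0) = 0)
    (hsm : ∀ z : ℝ × ℝ, z.2 ≠ 0 → ContDiffAt ℝ ∞ g z)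
    (hLL : ∀ z : ℝ × ℝ, z.2 ≠ 0 → z ∈ O → LL κ g z = 0)
    (hφ : ContDiff ℝ ∞ φ) (hφc : HasCompactSupport φ) (hφO : ∀ z, φ z ≠ 0 → z ∈ O)
    (hφ0 : ∀ τ, φ (τ, 0) = 0) : ∫ z, g z * Lst κ φ z = 0 := by
  obtain ⟨M, hM0, hM⟩ := bmp_bounds
  obtain ⟨S, hS0, hS⟩ := supp_bound hgs
  -- bounds for φ
  have hLc : HasCompactSupport (Lst κ φ) := by
    have h1 := D1_supp (D1_supp hφc)
    have h2 : HasCompactSupport (fun z => (1 - κ) * D1 φ z) := (D1_supp hφc).mul_left
    have h3 : HasCompactSupport (fun z => κ * D2 (D2 φ) z) := (D2_supp (D2_supp hφc)).mul_left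
    exact (h1.add h2).add h3
  have hLcont : Continuous (Lst κ φ) :=
    ((D1_smooth (D1_smooth hφ)).continuous.add
      (continuous_const.mul (D1_smooth hφ).continuous)).add
      (continuous_const.mul (D2_smooth (D2_smooth hφ)).continuous)
  obtain ⟨A0, hA0⟩ := hLc.exists_bound_of_continuous hLcont
  have hfc : HasCompactSupport (fderiv ℝ φ) := hφc.fderiv ℝ
  obtain ⟨A1, hA1⟩ := hfc.exists_bound_of_continuous (hφ.continuous_fderiv (by simp))
  have hA1' : 0 ≤ A1 := (norm_nonneg _).trans (hA1 0)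
  have hA0' : 0 ≤ A0 := (norm_nonneg _).trans (hA0 0)
  have hD2 : ∀ z, |D2 φ z| ≤ A1 := fun z => by
    have h1 := (fderiv ℝ φ z).le_opNorm (0, 1)
    have h2 : ‖((0 : ℝ), (1 : ℝ))‖ = 1 := by simp [Prod.norm_def]
    rw [h2, mul_one] at h1
    exact h1.trans (hA1 z)
  have hφle : ∀ z : ℝ × ℝ, |φ z| ≤ A1 * |z.2| := fun z => by
    have h1 := convex_univ.norm_image_sub_le_of_norm_fderiv_le (𝕜 := ℝ) (f := φ) (C := A1)
      (x := (z.1, 0)) (y := z) (fun x _ => diff hφ x) (fun x _ => hA1 x) (mem_univ _) (mem_univ _)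
    rw [hφ0, sub_zero] at h1
    have h2 : ‖z - (z.1, 0)‖ = |z.2| := by
      simp [Prod.norm_def]
    rwa [h2] at h1
  -- the estimate
  have key : ∀ ε : ℝ, 0 < ε → |∫ z, g z * Lst κ φ z| ≤
      8 * S * (A0 * M + |κ| * (4 * A1 * M)) * ε := by
    intro ε hε
    have huc : UniformContinuous g := hgs.uniformContinuous_of_continuous hgc
    rw [Metric.uniformContinuous_iff] at huc
    obtain ⟨δ0, hδ0, hu⟩ := huc ε hε
    set δ : ℝ := min 1 (δ0 / 4) with hδdef
    have hδ : 0 < δ := lt_min one_pos (by linarith)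
    have hδ1 : δ ≤ 1 := min_le_left _ _
    have hsmall : ∀ z : ℝ × ℝ, |z.2| ≤ 2 * δ → |g z| ≤ ε := by
      intro z hz
      have hd : dist z (z.1, 0) < δ0 := by
        rw [dist_eq_norm]
        have h2 : ‖z - (z.1, 0)‖ = |z.2| := by
          simp [Prod.norm_def]
        rw [h2]
        have : δ ≤ δ0 / 4 := min_le_right _ _
        linarith
      have := hu hd
      rw [hg0, dist_zero_right] at this
      exact this.le
    -- the two cut-offs
    have hbs : ContDiff ℝ ∞ (fun s : ℝ => bmp (δ⁻¹ * s)) := scal_smooth bmp_smooth _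
    have hχs : ContDiff ℝ ∞ (fun s : ℝ => 1 - bmp (δ⁻¹ * s)) := contDiff_const.sub hbs
    set φ1 : ℝ × ℝ → ℝ := fun y => φ y * bmp (δ⁻¹ * y.2) with hφ1
    set φ2 : ℝ × ℝ → ℝ := fun y => φ y * (1 - bmp (δ⁻¹ * y.2)) with hφ2
    have hφ1s : ContDiff ℝ ∞ φ1 := hφ.mul (hbs.comp contDiff_snd)
    have hφ2s : ContDiff ℝ ∞ φ2 := hφ.mul (hχs.comp contDiff_snd)
    have hφ2c : HasCompactSupport φ2 := hφc.mul_right
    have hφ1c : HasCompactSupport φ1 := hφc.mul_right
    have hdec : ∀ z, Lst κ φ1 z = Lst κ φ z - Lst κ φ2 z := by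
      intro z
      rw [← Lst_sub hφ hφ2s]
      congr 1
      funext y
      simp only [hφ1, hφ2]
      ring
    have hz1 : ∀ z : ℝ × ℝ, |z.2| < δ → φ2 =ᶠ[𝓝 z] fun _ => 0 := by
      intro z hz
      have : ∀ᶠ y : ℝ × ℝ in 𝓝 z, |y.2| < δ :=
        (continuous_snd.abs.continuousAt).eventually_lt_const hz
      filter_upwards [this] with y hy
      simp only [hφ2]
      rw [bmp_one, sub_self, mul_zero]
      rw [abs_mul, abs_of_pos (inv_pos.2 hδ), inv_mul_le_iff₀ hδ]
      linarith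
    have hz2 : ∀ z : ℝ × ℝ, 2 * δ < |z.2| → φ1 =ᶠ[𝓝 z] fun _ => 0 := by
      intro z hz
      have : ∀ᶠ y : ℝ × ℝ in 𝓝 z, 2 * δ < |y.2| :=
        (continuous_snd.abs.continuousAt).eventually_const_lt hz
      filter_upwards [this] with y hy
      simp only [hφ1]
      rw [bmp_zero, mul_zero]
      rw [abs_mul, abs_of_pos (inv_pos.2 hδ), le_inv_mul_iff₀ hδ]
      linarith
    have hLst0 : ∀ z : ℝ × ℝ, Lst κ (fun _ => (0 : ℝ)) z = 0 := by
      intro z
      have h1 : D1 (fun _ : ℝ × ℝ => (0 : ℝ)) = fun _ => 0 := by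
        funext y; simp [D1]
      have h2 : D2 (fun _ : ℝ × ℝ => (0 : ℝ)) = fun _ => 0 := by
        funext y; simp [D2]
      simp [Lst, h1, h2]
    -- the part away from the axis
    have hfar : ∫ z, g z * Lst κ φ2 z = 0 := by
      set w : ℝ × ℝ → ℝ := fun y => g y * (1 - bmp (4 * δ⁻¹ * y.2)) with hw
      have hws : ContDiff ℝ ∞ w := by
        rw [contDiff_iff_contDiffAt]
        intro z
        by_cases hz : z.2 = 0
        · have : w =ᶠ[𝓝 z] fun _ => 0 := by
            have : ∀ᶠ y : ℝ × ℝ in 𝓝 z, |y.2| < δ / 4 :=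
              (continuous_snd.abs.continuousAt).eventually_lt_const (by show |z.2| < δ / 4; rw [hz, abs_zero]; positivity)
            filter_upwards [this] with y hy
            simp only [hw]
            rw [bmp_one, sub_self, mul_zero]
            rw [abs_mul, abs_mul, abs_of_pos (inv_pos.2 hδ), abs_of_pos (by norm_num : (0:ℝ) < 4)]
            have : 4 * δ⁻¹ * |y.2| ≤ 4 * δ⁻¹ * (δ / 4) := by gcongr
            refine this.trans (le_of_eq ?_)
            field_simp
          exact contDiffAt_const.congr_of_eventuallyEq this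
        · exact (hsm z hz).mul (((contDiff_const.sub (scal_smooth bmp_smooth (4 * δ⁻¹))).comp
            contDiff_snd).contDiffAt)
      have hwg : ∀ z : ℝ × ℝ, δ / 2 ≤ |z.2| → w z = g z := by
        intro z hz
        simp only [hw]
        rw [bmp_zero, sub_zero, mul_one]
        rw [abs_mul, abs_mul, abs_of_pos (inv_pos.2 hδ), abs_of_pos (by norm_num : (0:ℝ) < 4)]
        have : 4 * δ⁻¹ * (δ / 2) ≤ 4 * δ⁻¹ * |z.2| := by gcongr
        refine le_trans (le_of_eq ?_) this
        field_simp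
        norm_num
      have h1 : ∀ z, g z * Lst κ φ2 z = w z * Lst κ φ2 z := by
        intro z
        by_cases hz : |z.2| < δ
        · rw [Lst_congr (hz1 z hz), hLst0, mul_zero, mul_zero]
        · rw [hwg z (by push Not at hz; linarith)]
      have h2 : ∫ z, g z * Lst κ φ2 z = ∫ z, w z * Lst κ φ2 z :=
        integral_congr_ae (Eventually.of_forall h1)
      rw [h2, ibp hws hφ2s hφ2c]
      have h3 : ∀ z, LL κ w z * φ2 z = 0 := by
        intro z
        by_cases hz : φ2 z = 0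
        · rw [hz, mul_zero]
        · have hzφ : φ z ≠ 0 := fun h => hz (by simp only [hφ2, h, zero_mul])
          have hzO := hφO z hzφ
          have hz1' : δ ≤ |z.2| := by
            by_contra hcon
            push Not at hcon
            exact hz (hz1 z hcon).eq_of_nhds
          have hz2' : z.2 ≠ 0 := by
            intro h0
            rw [h0, abs_zero] at hz1'
            linarith
          have h4 : w =ᶠ[𝓝 z] g := by
            have : ∀ᶠ y : ℝ × ℝ in 𝓝 z, δ / 2 < |y.2| :=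
              (continuous_snd.abs.continuousAt).eventually_const_lt (by linarith)
            filter_upwards [this] with y hy
            exact hwg y hy.le
          rw [LL_congr h4, hLL z hz2' hzO, zero_mul]
      simp only [h3, integral_zero]
    -- the part near the axis
    have hnear : |∫ z, g z * Lst κ φ1 z| ≤ 8 * S * (A0 * M + |κ| * (4 * A1 * M)) * ε := by
      set A : Set (ℝ × ℝ) := Icc (-S) S ×ˢ Icc (-(2 * δ)) (2 * δ) with hA
      have hout : ∀ z ∉ A, g z * Lst κ φ1 z = 0 := by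
        intro z hz
        by_cases h1 : g z = 0
        · rw [h1, zero_mul]
        · have h2 := abs_le.1 (hS z h1)
          have h3 : 2 * δ < |z.2| := by
            by_contra hcon
            push Not at hcon
            have h4 := abs_le.1 hcon
            exact hz ⟨⟨h2.1, h2.2⟩, ⟨h4.1, h4.2⟩⟩
          rw [Lst_congr (hz2 z h3), hLst0, mul_zero]
      have hvol : volume A = ENNReal.ofReal (2 * S * (4 * δ)) := by
        rw [hA, Measure.volume_eq_prod, Measure.prod_prod, Real.volume_Icc, Real.volume_Icc,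
          ← ENNReal.ofReal_mul (by linarith)]
        congr 1
        ring
      have hvol' : (volume : Measure (ℝ × ℝ)).real A = 2 * S * (4 * δ) := by
        rw [Measure.real, hvol, ENNReal.toReal_ofReal (by positivity)]
      have hb : ∀ z ∈ A, ‖g z * Lst κ φ1 z‖ ≤ ε * ((A0 * M + |κ| * (4 * A1 * M)) / δ) := by
        intro z hz
        have hz2 : |z.2| ≤ 2 * δ := abs_le.2 ⟨hz.2.1, hz.2.2⟩
        rw [norm_mul]
        have hg := hsmall z hz2
        refine mul_le_mul hg ?_ (norm_nonneg _) hε.le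
        have e1 : Lst κ φ1 z = Lst κ φ z * bmp (δ⁻¹ * z.2) +
            κ * (2 * D2 φ z * (δ⁻¹ * deriv bmp (δ⁻¹ * z.2)) +
              φ z * (δ⁻¹ ^ 2 * deriv (deriv bmp) (δ⁻¹ * z.2))) := by
          rw [hφ1, Lst_mul_snd hφ hbs, deriv_scal, deriv_deriv_scal]
        rw [e1, Real.norm_eq_abs]
        have m0 := (hM (δ⁻¹ * z.2)).1
        have m1 := (hM (δ⁻¹ * z.2)).2.1
        have m2 := (hM (δ⁻¹ * z.2)).2.2
        have hdi : 0 < δ⁻¹ := inv_pos.2 hδ
        have hdi1 : 1 ≤ δ⁻¹ := (one_le_inv₀ hδ).2 hδ1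
        have t1 : |Lst κ φ z * bmp (δ⁻¹ * z.2)| ≤ A0 * M * δ⁻¹ := by
          rw [abs_mul]
          calc |Lst κ φ z| * |bmp (δ⁻¹ * z.2)| ≤ A0 * M :=
                mul_le_mul (hA0 z) m0 (abs_nonneg _) hA0'
            _ ≤ A0 * M * δ⁻¹ := le_mul_of_one_le_right (by positivity) hdi1
        have t2 : |2 * D2 φ z * (δ⁻¹ * deriv bmp (δ⁻¹ * z.2))| ≤ 2 * A1 * M * δ⁻¹ := by
          rw [abs_mul, abs_mul, abs_mul, abs_of_pos hdi, abs_of_pos (by norm_num : (0:ℝ) < 2)]
          calc 2 * |D2 φ z| * (δ⁻¹ * |deriv bmp (δ⁻¹ * z.2)|) ≤ 2 * A1 * (δ⁻¹ * M) := by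
                gcongr; exact hD2 z
            _ = 2 * A1 * M * δ⁻¹ := by ring
        have t3 : |φ z * (δ⁻¹ ^ 2 * deriv (deriv bmp) (δ⁻¹ * z.2))| ≤ 2 * A1 * M * δ⁻¹ := by
          rw [abs_mul, abs_mul, abs_of_pos (by positivity : (0:ℝ) < δ⁻¹ ^ 2)]
          calc |φ z| * (δ⁻¹ ^ 2 * |deriv (deriv bmp) (δ⁻¹ * z.2)|)
              ≤ (A1 * (2 * δ)) * (δ⁻¹ ^ 2 * M) := by
                gcongr
                exact (hφle z).trans (by gcongr)
            _ = 2 * A1 * M * δ⁻¹ := by field_simp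
        calc _ ≤ |Lst κ φ z * bmp (δ⁻¹ * z.2)| + |κ| * (|2 * D2 φ z * (δ⁻¹ * deriv bmp (δ⁻¹ * z.2))| +
              |φ z * (δ⁻¹ ^ 2 * deriv (deriv bmp) (δ⁻¹ * z.2))|) := by
              refine (abs_add_le _ _).trans ?_
              rw [abs_mul κ]
              gcongr
              exact abs_add_le _ _
          _ ≤ A0 * M * δ⁻¹ + |κ| * (2 * A1 * M * δ⁻¹ + 2 * A1 * M * δ⁻¹) := by gcongr
          _ = (A0 * M + |κ| * (4 * A1 * M)) / δ := by ring
      have h5 := norm_setIntegral_le_of_norm_le_const (μ := volume) (s := A)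
        (f := fun z => g z * Lst κ φ1 z) (by rw [hvol]; exact ENNReal.ofReal_lt_top) hb
      rw [setIntegral_eq_integral_of_forall_compl_eq_zero hout, hvol'] at h5
      refine h5.trans (le_of_eq ?_)
      field_simp
      ring
    have hsplit : ∫ z, g z * Lst κ φ z = (∫ z, g z * Lst κ φ1 z) + ∫ z, g z * Lst κ φ2 z := by
      have i1 : Integrable (fun z => g z * Lst κ φ1 z) := by
        refine Continuous.integrable_of_hasCompactSupport (hgc.mul ?_) hgs.mul_right
        exact ((D1_smooth (D1_smooth hφ1s)).continuous.add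
          (continuous_const.mul (D1_smooth hφ1s).continuous)).add
          (continuous_const.mul (D2_smooth (D2_smooth hφ1s)).continuous)
      have i2 : Integrable (fun z => g z * Lst κ φ2 z) := by
        refine Continuous.integrable_of_hasCompactSupport (hgc.mul ?_) hgs.mul_right
        exact ((D1_smooth (D1_smooth hφ2s)).continuous.add
          (continuous_const.mul (D1_smooth hφ2s).continuous)).add
          (continuous_const.mul (D2_smooth (D2_smooth hφ2s)).continuous)
      rw [← integral_add i1 i2]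
      refine integral_congr_ae (Eventually.of_forall fun z => ?_)
      simp only [hdec z]
      ring
    rw [hsplit, hfar, add_zero]
    exact hnear
  have hfin : |∫ z, g z * Lst κ φ z| ≤ 0 := by
    refine le_of_forall_pos_le_add fun ε hε => ?_
    set C := 8 * S * (A0 * M + |κ| * (4 * A1 * M)) with hC
    have hC0 : 0 ≤ C := by positivity
    have := key (ε / (C + 1)) (by positivity)
    refine this.trans ?_
    rw [zero_add, mul_div_assoc', div_le_iff₀ (by positivity)]
    nlinarith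
  exact abs_nonpos_iff.1 hfin

end Pool.Agent.Helper11.Refl
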