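import Pool.Agent.Helper11.Refl.B

/-!
# Packet REFL (MP_576c25_an): mollification and the reflection theorem
-/

set_option autoImplicit false
open MeasureTheory Set Filter Topology
open scoped ContDiff Real Convolution

noncomputable section
namespace Pool.Agent.Helper11.Refl
open Pool.Agent.Helper25.PCap

theorem RR_mp : MeasurePreserving (fun z : ℝ × ℝ => RR z) := by
  have h := (MeasurePreserving.id (volume : Measure ℝ)).prod
    (Measure.measurePreserving_neg (volume : Measure ℝ))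
  exact h

/-- The axis is removable: general test functions. -/
theorem gen_test {κ : ℝ} (O : Set (ℝ × ℝ)) (g φ : ℝ × ℝ → ℝ)
    (hgc : Continuous g) (hgs : HasCompactSupport g) (hg0 : ∀ τ, g (τ, 0) = 0)
    (hodd : ∀ z, g (RR z) = -g z) (hOs : ∀ z ∈ O, RR z ∈ O)
    (hsm : ∀ z : ℝ × ℝ, z.2 ≠ 0 → ContDiffAt ℝ ∞ g z)
    (hLL : ∀ z : ℝ × ℝ, z.2 ≠ 0 → z ∈ O → LL κ g z = 0)
    (hφ : ContDiff ℝ ∞ φ) (hφc : HasCompactSupport φ) (hφO : ∀ z, φ z ≠ 0 → z ∈ O) :
    ∫ z, g z * Lst κ φ z = 0 := by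
  have hφR : ContDiff ℝ ∞ (fun z => φ (RR z)) := hφ.comp RR.contDiff
  have hφRc : HasCompactSupport (fun z => φ (RR z)) :=
    hφc.comp_homeomorph RR.toHomeomorph
  have h1 : ∫ z, g z * Lst κ (fun y => φ y - φ (RR y)) z = 0 := by
    refine odd_test O g _ hgc hgs hg0 hsm hLL (hφ.sub hφR) (hφc.sub hφRc) ?_ ?_
    · intro z hz
      by_cases h0 : φ z = 0
      · have h2 : φ (RR z) ≠ 0 := by
          intro h3
          exact hz (by rw [h0, h3, sub_self])
        have := hOs _ (hφO _ h2)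
        rwa [RR_RR] at this
      · exact hφO z h0
    · intro τ
      simp [RR_apply]
  have hLc : Continuous (Lst κ φ) :=
    ((D1_smooth (D1_smooth hφ)).continuous.add
      (continuous_const.mul (D1_smooth hφ).continuous)).add
      (continuous_const.mul (D2_smooth (D2_smooth hφ)).continuous)
  have i1 : Integrable (fun z => g z * Lst κ φ z) :=
    (hgc.mul hLc).integrable_of_hasCompactSupport hgs.mul_right
  have i2 : Integrable (fun z => g z * Lst κ φ (RR z)) :=
    (hgc.mul (hLc.comp RR.continuous)).integrable_of_hasCompactSupport hgs.mul_right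
  have h2 : ∫ z, g z * Lst κ (fun y => φ y - φ (RR y)) z =
      (∫ z, g z * Lst κ φ z) - ∫ z, g z * Lst κ φ (RR z) := by
    rw [← integral_sub i1 i2]
    refine integral_congr_ae (Eventually.of_forall fun z => ?_)
    simp only [Lst_sub hφ hφR, Lst_RR]
    ring
  have h3 : ∫ z, g z * Lst κ φ (RR z) = -∫ z, g z * Lst κ φ z := by
    have h4 := RR_mp.integral_comp RR.toHomeomorph.measurableEmbedding
      (fun z => g (RR z) * Lst κ φ z)
    simp only [RR_RR] at h4
    rw [h4, ← integral_neg]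
    refine integral_congr_ae (Eventually.of_forall fun z => ?_)
    simp only [hodd]
    ring
  rw [h2, h3] at h1
  linarith

/-! ### convolution -/

/-- the convolution -/
def cv (g ρ : ℝ × ℝ → ℝ) (x : ℝ × ℝ) : ℝ := ∫ y, g y * ρ (x - y)

theorem cv_eq (g ρ : ℝ × ℝ → ℝ) :
    cv g ρ = MeasureTheory.convolution g ρ (ContinuousLinearMap.mul ℝ ℝ) volume := rfl

theorem cv_smooth {g ρ : ℝ × ℝ → ℝ} (hg : Continuous g) (hρ : ContDiff ℝ ∞ ρ)
    (hρc : HasCompactSupport ρ) : ContDiff ℝ ∞ (cv g ρ) := by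
  rw [cv_eq]
  exact hρc.contDiff_convolution_right _ hg.locallyIntegrable hρ

theorem fderiv_cv {g ρ : ℝ × ℝ → ℝ} (hg : Continuous g) (hρ : ContDiff ℝ ∞ ρ)
    (hρc : HasCompactSupport ρ) (x v : ℝ × ℝ) :
    fderiv ℝ (cv g ρ) x v = cv g (fun y => fderiv ℝ ρ y v) x := by
  have h1 := hρc.hasFDerivAt_convolution_right (ContinuousLinearMap.mul ℝ ℝ)
    (hg.locallyIntegrable (μ := volume)) (hρ.of_le (by simp)) x
  rw [cv_eq, h1.fderiv, convolution_precompR_apply]
  · rfl
  · exact hg.locallyIntegrable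
  · exact hρc.fderiv ℝ
  · exact hρ.continuous_fderiv (by simp)

theorem LL_cv {κ : ℝ} {g ρ : ℝ × ℝ → ℝ} (hg : Continuous g) (hgs : HasCompactSupport g)
    (hρ : ContDiff ℝ ∞ ρ) (hρc : HasCompactSupport ρ) (x : ℝ × ℝ) :
    LL κ (cv g ρ) x = ∫ y, g y * LL κ ρ (x - y) := by
  have e1 : ∀ {σ : ℝ × ℝ → ℝ}, ContDiff ℝ ∞ σ → HasCompactSupport σ →
      D1 (cv g σ) = cv g (D1 σ) := fun h1 h2 => funext fun y => fderiv_cv hg h1 h2 y (1, 0)
  have e2 : ∀ {σ : ℝ × ℝ → ℝ}, ContDiff ℝ ∞ σ → HasCompactSupport σ →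
      D2 (cv g σ) = cv g (D2 σ) := fun h1 h2 => funext fun y => fderiv_cv hg h1 h2 y (0, 1)
  unfold LL
  rw [e1 hρ hρc, e1 (D1_smooth hρ) (D1_supp hρc), e2 hρ hρc, e2 (D2_smooth hρ) (D2_supp hρc)]
  have hi : ∀ {σ : ℝ × ℝ → ℝ}, Continuous σ → Integrable (fun y => g y * σ (x - y)) := by
    intro σ hσ
    exact (hg.mul (hσ.comp (continuous_const.sub continuous_id))).integrable_of_hasCompactSupport
      hgs.mul_right
  have i1 := hi (D1_smooth (D1_smooth hρ)).continuous
  have i2 := hi (D1_smooth hρ).continuous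
  have i3 := hi (D2_smooth (D2_smooth hρ)).continuous
  have s1 : Integrable (fun y => g y * D1 (D1 ρ) (x - y) - (1 - κ) * (g y * D1 ρ (x - y))) :=
    i1.sub (i2.const_mul _)
  unfold cv
  rw [← integral_const_mul, ← integral_const_mul, ← integral_sub i1 (i2.const_mul _),
    ← integral_add s1 (i3.const_mul _)]
  refine integral_congr_ae (Eventually.of_forall fun z => ?_)
  simp only
  ring

/-- the bump functions of the mollification -/
def bk (d : ℝ) (hd : 0 < d) (k : ℕ) : ContDiffBump (0 : ℝ × ℝ) :=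
  ⟨d / (k + 1) / 2, d / (k + 1), by positivity, half_lt_self (by positivity)⟩

theorem box_open (t₀ r : ℝ) : IsOpen (box t₀ r) := by
  unfold box
  exact (isOpen_lt ((continuous_fst.sub continuous_const).abs) continuous_const).inter
    (isOpen_lt continuous_snd.abs continuous_const)

/-- A continuous odd function which solves the equation off the axis is a solution. -/
theorem main {κ : ℝ} (hκ : 0 < κ) (hκ' : κ < 1) (h2 : GLim) (t₀ R R1 : ℝ) (hR1 : R < R1)
    (g : ℝ × ℝ → ℝ) (hgc : Continuous g) (hgs : HasCompactSupport g) (hg0 : ∀ τ, g (τ, 0) = 0)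
    (hodd : ∀ z, g (RR z) = -g z)
    (hsm : ∀ z : ℝ × ℝ, z.2 ≠ 0 → ContDiffAt ℝ ∞ g z)
    (hLL : ∀ z : ℝ × ℝ, z.2 ≠ 0 → z ∈ box t₀ R1 → LL κ g z = 0) :
    ContDiffOn ℝ ∞ g (box t₀ R) ∧ ∀ z ∈ box t₀ R, LL κ g z = 0 := by
  have hd : 0 < R1 - R := sub_pos.2 hR1
  obtain ⟨A, hA⟩ := hgs.exists_bound_of_continuous hgc
  set ρ : ℕ → ℝ × ℝ → ℝ := fun k => (bk (R1 - R) hd k).normed volume with hρ
  have hρs : ∀ k, ContDiff ℝ ∞ (ρ k) := fun k => (bk (R1 - R) hd k).contDiff_normed
  have hρc : ∀ k, HasCompactSupport (ρ k) := fun k => (bk (R1 - R) hd k).hasCompactSupport_normed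
  refine h2 κ hκ hκ' (box t₀ R) (fun k => cv g (ρ k)) g A (box_open _ _)
    (fun k => (ContDiff.of_le (m := 2) (cv_smooth hgc (hρs k) (hρc k))
      (WithTop.coe_le_coe.2 le_top)).contDiffOn) ?_ ?_ ?_
  · intro k x hx
    rw [LL_cv hgc hgs (hρs k) (hρc k)]
    have h3 : ∀ y, LL κ (ρ k) (x - y) = Lst κ (fun y => ρ k (x - y)) y := fun y =>
      (Lst_ref (ρ k) x y).symm
    simp only [h3]
    refine gen_test (box t₀ R1) g _ hgc hgs hg0 hodd ?_ hsm hLL ?_ ?_ ?_
    · intro z hz
      refine ⟨hz.1, ?_⟩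
      rw [RR_apply]
      simpa using hz.2
    · exact (hρs k).comp (contDiff_const.sub contDiff_id)
    · exact (hρc k).comp_homeomorph (Homeomorph.subLeft x)
    · intro y hy
      have h4 : x - y ∈ Function.support (ρ k) := hy
      rw [hρ] at h4
      simp only [ContDiffBump.support_normed_eq] at h4
      have h5 : ‖x - y‖ < (R1 - R) / (k + 1) := by
        simpa [bk] using h4
      have h6 : (R1 - R) / ((k : ℝ) + 1) ≤ R1 - R := by
        apply div_le_self hd.le
        have : (0 : ℝ) ≤ k := Nat.cast_nonneg k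
        linarith
      have h7 : |x.1 - y.1| < R1 - R := (norm_fst_le (x - y)).trans_lt (h5.trans_le h6)
      have h8 : |x.2 - y.2| < R1 - R := (norm_snd_le (x - y)).trans_lt (h5.trans_le h6)
      have h9 := hx.1
      have h10 := hx.2
      rw [abs_lt] at h7 h8 h9 h10
      constructor
      · rw [abs_lt]; constructor <;> linarith
      · rw [abs_lt]; constructor <;> linarith
  · intro k x _
    have h3 : |cv g (ρ k) x| ≤ ∫ y, A * ρ k (x - y) := by
      unfold cv
      rw [← Real.norm_eq_abs]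
      have hi : Integrable (fun y => ρ k (x - y)) :=
        ((hρs k).continuous.integrable_of_hasCompactSupport (hρc k)).comp_sub_left x
      refine norm_integral_le_of_norm_le (hi.const_mul A) (Eventually.of_forall fun y => ?_)
      rw [norm_mul]
      have h0 : 0 ≤ ρ k (x - y) := (bk (R1 - R) hd k).nonneg_normed _
      rw [Real.norm_of_nonneg h0]
      exact mul_le_mul_of_nonneg_right (hA y) h0
    refine h3.trans (le_of_eq ?_)
    rw [integral_const_mul, integral_sub_left_eq_self, (bk (R1 - R) hd k).integral_normed, mul_one]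
  · intro x _
    have h3 : Tendsto (fun k => (bk (R1 - R) hd k).rOut) atTop (𝓝 0) := by
      have : (fun k => (bk (R1 - R) hd k).rOut) = fun k : ℕ => (R1 - R) / ((k : ℝ) + 1) := rfl
      rw [this]
      exact tendsto_const_div_atTop_nhds_zero_nat (R1 - R) |>.comp (tendsto_add_atTop_nat 1) |>.congr
        fun k => by simp
    have h4 := ContDiffBump.convolution_tendsto_right_of_continuous (μ := volume) h3 hgc x
    refine h4.congr fun k => ?_
    rw [convolution_eq_swap]
    unfold cv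
    refine integral_congr_ae (Eventually.of_forall fun y => ?_)
    simp only [hρ, ContinuousLinearMap.lsmul_apply, smul_eq_mul]
    ring

theorem pkRefl (_h1 : GRepr) (h2 : GLim) : GRefl := by
  intro κ hκ hκ' t₀ r v hr hvc hv0 hvs hvL
  classical
  set vt : ℝ × ℝ → ℝ := fun z => if 0 ≤ z.2 then v z else -v (RR z) with hvt
  have hbRR : ∀ {z : ℝ × ℝ}, z ∈ box t₀ r → RR z ∈ box t₀ r := fun {z} hz =>
    ⟨hz.1, by rw [RR_apply]; simpa using hz.2⟩
  -- local descriptions
  have hpos : ∀ z : ℝ × ℝ, 0 < z.2 → vt =ᶠ[𝓝 z] v := by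
    intro z hz
    filter_upwards [continuous_snd.continuousAt.eventually_const_lt hz] with y hy
    simp only [hvt]
    rw [if_pos (le_of_lt hy)]
  have hneg : ∀ z : ℝ × ℝ, z.2 < 0 → vt =ᶠ[𝓝 z] fun y => -v (RR y) := by
    intro z hz
    filter_upwards [continuous_snd.continuousAt.eventually_lt_const hz] with y hy
    simp only [hvt]
    rw [if_neg (not_le.2 hy)]
  have hopen : IsOpen (box t₀ r ∩ {z : ℝ × ℝ | 0 < z.2}) :=
    (box_open _ _).inter (isOpen_lt continuous_const continuous_snd)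
  have hvtodd : ∀ z ∈ box t₀ r, vt (RR z) = -vt z := by
    intro z hz
    simp only [hvt]
    rcases lt_trichotomy z.2 0 with h | h | h
    · rw [if_pos (by rw [RR_apply]; simp; linarith), if_neg (not_le.2 h), neg_neg]
    · have hz0 : v z = 0 := hv0 z hz h
      have hzR : RR z = z := by
        rw [RR_apply, h, neg_zero, ← h]
      rw [hzR, hz0]
      simp [h]
    · rw [if_neg (by rw [RR_apply]; simp; linarith), if_pos h.le, RR_RR]
  have hvtsm : ∀ z ∈ box t₀ r, z.2 ≠ 0 → ContDiffAt ℝ ∞ vt z := by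
    intro z hz hz2
    rcases lt_or_gt_of_ne hz2 with h | h
    · refine ContDiffAt.congr_of_eventuallyEq ?_ (hneg z h)
      have h3 : ContDiffAt ℝ ∞ v (RR z) :=
        hvs.contDiffAt (hopen.mem_nhds ⟨hbRR hz, by rw [RR_apply]; simpa using h⟩)
      exact (h3.comp z RR.contDiff.contDiffAt).neg
    · exact (hvs.contDiffAt (hopen.mem_nhds ⟨hz, h⟩)).congr_of_eventuallyEq (hpos z h)
  have hvtLL : ∀ z ∈ box t₀ r, z.2 ≠ 0 → LL κ vt z = 0 := by
    intro z hz hz2
    rcases lt_or_gt_of_ne hz2 with h | h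
    · rw [LL_congr (hneg z h), LL_neg, LL_RR, hvL _ ⟨hbRR hz, by rw [RR_apply]; simpa using h⟩,
        neg_zero]
    · rw [LL_congr (hpos z h), hvL _ ⟨hz, h⟩]
  have hvtc : ∀ z ∈ box t₀ r, ContinuousAt vt z := by
    intro z hz
    by_cases hz2 : z.2 = 0
    · have hz0 : v z = 0 := hv0 z hz hz2
      have hvz : vt z = 0 := by simp only [hvt]; rw [if_pos hz2.ge, hz0]
      have hzR : RR z = z := by
        rw [RR_apply, hz2, neg_zero, ← hz2]
      have h3 : ContinuousWithinAt v (box t₀ r ∩ {z | 0 ≤ z.2}) z := hvc z ⟨hz, hz2.ge⟩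
      rw [Metric.continuousWithinAt_iff] at h3
      rw [Metric.continuousAt_iff]
      intro ε hε
      obtain ⟨δ, hδ, h4⟩ := h3 ε hε
      obtain ⟨δ', hδ', h5⟩ := Metric.isOpen_iff.1 (box_open t₀ r) z hz
      refine ⟨min δ δ', lt_min hδ hδ', fun {y} hy => ?_⟩
      have hyb : y ∈ box t₀ r := h5 (lt_of_lt_of_le hy (min_le_right _ _))
      have hyd : dist y z < δ := lt_of_lt_of_le hy (min_le_left _ _)
      rw [hvz]
      rw [hz0] at h4
      by_cases hy2 : 0 ≤ y.2
      · simp only [hvt]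
        rw [if_pos hy2]
        exact h4 ⟨hyb, hy2⟩ hyd
      · simp only [hvt]
        rw [if_neg hy2, dist_zero_right, norm_neg, ← dist_zero_right]
        refine h4 ⟨hbRR hyb, ?_⟩ ?_
        · rw [RR_apply]
          show 0 ≤ -y.2
          linarith
        · have : dist (RR y) z = dist y z := by
            conv_lhs => rw [← hzR]
            rw [RR_apply, RR_apply, Prod.dist_eq, Prod.dist_eq]
            simp [dist_neg_neg]
          rwa [this]
    · exact (hvtsm z hz hz2).continuousAt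
  -- the local theorem
  have hloc : ∀ R, 0 < R → R < r → ContDiffOn ℝ ∞ vt (box t₀ R) ∧ ∀ z ∈ box t₀ R, LL κ vt z = 0 := by
    intro R hR0 hRr
    set R1 : ℝ := (2 * R + r) / 3 with hR1
    set R2 : ℝ := (R + 2 * r) / 3 with hR2
    have h12 : R < R1 := by rw [hR1]; linarith
    have h23 : R1 < R2 := by rw [hR1, hR2]; linarith
    have h34 : R2 < r := by rw [hR2]; linarith
    let β : ContDiffBump (0 : ℝ) := ⟨R1, R2, by linarith, h23⟩
    have hβ1 : ∀ s : ℝ, |s| ≤ R1 → β s = 1 := fun s hs =>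
      β.one_of_mem_closedBall (by simpa [β, Real.dist_eq] using hs)
    have hβ0 : ∀ s : ℝ, R2 ≤ |s| → β s = 0 := fun s hs =>
      β.zero_of_le_dist (by simpa [β, Real.dist_eq] using hs)
    set ψ : ℝ × ℝ → ℝ := fun z => β (z.1 - t₀) * β z.2 with hψ
    have hψs : ContDiff ℝ ∞ ψ :=
      (β.contDiff.comp (contDiff_fst.sub contDiff_const)).mul (β.contDiff.comp contDiff_snd)
    have hψ0 : ∀ z : ℝ × ℝ, ψ z ≠ 0 → |z.1 - t₀| < R2 ∧ |z.2| < R2 := by
      intro z hz
      constructor
      · by_contra h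
        push Not at h
        exact hz (by simp only [hψ]; rw [hβ0 _ h, zero_mul])
      · by_contra h
        push Not at h
        exact hz (by simp only [hψ]; rw [hβ0 _ h, mul_zero])
    have hψc : HasCompactSupport ψ := by
      refine HasCompactSupport.intro
        (isCompact_Icc.prod isCompact_Icc : IsCompact (Icc (t₀ - R2) (t₀ + R2) ×ˢ Icc (-R2) R2)) ?_
      intro z hz
      by_contra h
      have h3 := hψ0 z h
      rw [abs_lt, abs_lt] at h3
      exact hz ⟨⟨by linarith [h3.1.1], by linarith [h3.1.2]⟩, ⟨by linarith [h3.2.1], by linarith [h3.2.2]⟩⟩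
    have hψfar : ∀ z : ℝ × ℝ, z ∉ box t₀ r → ψ =ᶠ[𝓝 z] fun _ => 0 := by
      intro z hz
      have hz' : R2 < |z.1 - t₀| ∨ R2 < |z.2| := by
        by_contra hcon
        push Not at hcon
        exact hz ⟨by linarith [hcon.1], by linarith [hcon.2]⟩
      rcases hz' with h | h
      · have hc : ContinuousAt (fun y : ℝ × ℝ => |y.1 - t₀|) z :=
          ((continuous_fst.sub continuous_const).abs).continuousAt
        filter_upwards [hc.eventually_const_lt h] with y hy
        by_contra h3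
        exact absurd (hψ0 y h3).1 (not_lt.2 hy.le)
      · have hc : ContinuousAt (fun y : ℝ × ℝ => |y.2|) z := continuous_snd.abs.continuousAt
        filter_upwards [hc.eventually_const_lt h] with y hy
        by_contra h3
        exact absurd (hψ0 y h3).2 (not_lt.2 hy.le)
    set g : ℝ × ℝ → ℝ := fun z => ψ z * vt z with hg
    have hgfar : ∀ z : ℝ × ℝ, z ∉ box t₀ r → g =ᶠ[𝓝 z] fun _ => 0 := by
      intro z hz
      filter_upwards [hψfar z hz] with y hy
      simp only [hg]
      rw [hy, zero_mul]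
    have hgin : ∀ z ∈ box t₀ R1, g =ᶠ[𝓝 z] vt := by
      intro z hz
      filter_upwards [(box_open t₀ R1).mem_nhds hz] with y hy
      simp only [hg, hψ]
      rw [hβ1 _ hy.1.le, hβ1 _ hy.2.le, one_mul, one_mul]
    have hsub : box t₀ R1 ⊆ box t₀ r := fun z hz => ⟨by linarith [hz.1], by linarith [hz.2]⟩
    have hsub' : box t₀ R ⊆ box t₀ R1 := fun z hz => ⟨by linarith [hz.1], by linarith [hz.2]⟩
    have hgc : Continuous g := by
      rw [continuous_iff_continuousAt]
      intro z
      by_cases hz : z ∈ box t₀ r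
      · exact hψs.continuous.continuousAt.mul (hvtc z hz)
      · exact (continuousAt_const (y := (0 : ℝ))).congr (hgfar z hz).symm
    have hfin := main hκ hκ' h2 t₀ R R1 h12 g hgc hψc.mul_right ?_ ?_ ?_ ?_
    · have heq : ∀ z ∈ box t₀ R, g =ᶠ[𝓝 z] vt := fun z hz => hgin z (hsub' hz)
      refine ⟨fun z hz => ?_, fun z hz => ?_⟩
      · exact ((hfin.1.contDiffAt ((box_open _ _).mem_nhds hz)).congr_of_eventuallyEq
          (heq z hz).symm).contDiffWithinAt
      · rw [← LL_congr (heq z hz)]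
        exact hfin.2 z hz
    · intro τ
      by_cases h : ((τ, 0) : ℝ × ℝ) ∈ box t₀ r
      · simp only [hg, hvt]
        rw [if_pos (le_refl _), hv0 _ h rfl, mul_zero]
      · exact (hgfar _ h).eq_of_nhds
    · intro z
      have hψR : ψ (RR z) = ψ z := by
        simp only [hψ, RR_apply]
        rw [β.neg]
      simp only [hg]
      rw [hψR]
      by_cases h : z ∈ box t₀ r
      · rw [hvtodd z h]; ring
      · rw [(hψfar z h).eq_of_nhds]; ring
    · intro z hz2
      by_cases h : z ∈ box t₀ r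
      · exact hψs.contDiffAt.mul (hvtsm z h hz2)
      · exact contDiffAt_const.congr_of_eventuallyEq (hgfar z h)
    · intro z hz2 hz
      rw [LL_congr (hgin z hz)]
      exact hvtLL z (hsub hz) hz2
  -- conclusion
  have hex : ∀ z ∈ box t₀ r, ∃ R, 0 < R ∧ R < r ∧ z ∈ box t₀ R := by
    intro z hz
    have hm : max |z.1 - t₀| |z.2| < r := max_lt hz.1 hz.2
    have hm0 : 0 ≤ max |z.1 - t₀| |z.2| := le_max_of_le_left (abs_nonneg _)
    refine ⟨(max |z.1 - t₀| |z.2| + r) / 2, by linarith, by linarith, ?_, ?_⟩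
    · have := le_max_left |z.1 - t₀| |z.2|
      show |z.1 - t₀| < _
      linarith
    · have := le_max_right |z.1 - t₀| |z.2|
      show |z.2| < _
      linarith
  refine ⟨vt, fun z hz => ?_, fun z hz => ?_, fun z _ hz2 => ?_⟩
  · obtain ⟨R, h0, h1, hzR⟩ := hex z hz
    exact (((hloc R h0 h1).1.contDiffAt ((box_open _ _).mem_nhds hzR))).contDiffWithinAt
  · obtain ⟨R, h0, h1, hzR⟩ := hex z hz
    exact (hloc R h0 h1).2 z hzR
  · simp only [hvt]
    rw [if_pos hz2]

end Pool.Agent.Helper11.Refl
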